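import Pool.Agent.J6H50.RF.Stm

/-! # Module RF-21 -/

set_option autoImplicit false

namespace Pool.Agent.J6H77.RF21

open Pool.Agent.J6H50.RF Pool.Agent.NPC

theorem poly_bitsOf {α : Type} [TEnc α] : NPC.Poly (fun a : α => bits a) := by
  have h0 : PC (fun x : List Bool => x) (fun x : List Bool => x) (fun x => x) := PC.id
  have h1 : PC (bits : α → List Bool) (fun x : List Bool => x) (fun a => bits a) := by
    obtain ⟨c, p, h⟩ := h0
    exact ⟨c, p, fun a => h (bits a)⟩
  exact PC.comp (g := fun x => x) (f := fun a : α => bits a) PC.rawIn h1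

theorem upoly_sz {α : Type} [TEnc α] : UPoly (fun a : α => sz a) :=
  (UPoly.length (poly_bitsOf (α := α))).congr fun a => by
    show List.replicate (bits a).length () = List.replicate (sz a) ()
    rw [bits_length]

theorem poly_size {α : Type} [TEnc α] {n : α → ℕ} (hn : NPC.Poly n) : NPC.Poly (fun a => (n a).size) :=
  (NPC.Poly.length (NPC.Poly.natBits hn)).congr fun a => by rw [Nat.size_eq_bits_len]

theorem poly_two_pow {α β : Type} [TEnc α] [TEnc β] {l : α → List β} (hl : NPC.Poly l) :
    NPC.Poly (fun a => 2 ^ (l a).length) :=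
  (NPC.Poly.valBits (NPC.Poly.append (NPC.Poly.map hl (F := fun _ _ => false) (NPC.Poly.const false))
    (NPC.Poly.const [true]))).congr fun a => by
      have e : (l a).map (fun _ => false) = List.replicate (l a).length false := by
        rw [List.eq_replicate_iff]
        simp
      rw [e, valB_replicate_false]
      simp

theorem poly_pr {α : Type} [TEnc α] {a b : α → ℕ} (ha : NPC.Poly a) (hb : NPC.Poly b) :
    NPC.Poly (fun x => pr (a x) (b x)) :=
  NPC.Poly.add (NPC.Poly.mul (NPC.Poly.add ha hb) (NPC.Poly.add ha hb)) ha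

theorem pr_lt {a b k : ℕ} (ha : a < 2 ^ k) (hb : b < 2 ^ k) : pr a b < 2 ^ (2 * k + 3) := by
  unfold pr
  have h1 : a + b < 2 * 2 ^ k := by omega
  have h2 : (a + b) * (a + b) ≤ (2 * 2 ^ k) * (2 * 2 ^ k) := Nat.mul_le_mul h1.le h1.le
  have h3 : 2 ^ (2 * k + 3) = 8 * (2 ^ k * 2 ^ k) := by
    rw [pow_add, two_mul, pow_add]
    ring
  have h4 : 1 ≤ 2 ^ k := Nat.one_le_two_pow
  rw [h3]
  nlinarith

theorem qd_lt {a x z u k : ℕ} (ha : a < 2 ^ k) (hx : x < 2 ^ k) (hz : z < 2 ^ k) (hu : u < 2 ^ k) :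
    qd a x z u < 2 ^ (4 * k + 9) := by
  have := pr_lt (pr_lt ha hx) (pr_lt hz hu)
  have e : 2 * (2 * k + 3) + 3 = 4 * k + 9 := by ring
  rwa [e] at this

abbrev A : Type := ℕ × List Unit × List Unit
abbrev B : Type := ℕ × ℕ × ℕ × ℕ × T

/-- the list for the premise -/
def l1 (p : A × B) : List ℕ := [p.1.1, qd p.2.1 p.2.2.1 p.2.2.2.1 p.2.2.2.2.1, 2 ^ p.1.2.2.length]

/-- the list for the conclusion -/
def l2 (p : A × B) : List ℕ := [p.2.1, p.2.2.1, p.2.2.2.1]

/-- the premise -/
def prem (V : List ℕ × T → Bool) (q : Polynomial ℕ) (p : A × B) : Bool :=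
  decide (p.2.1.size ≤ p.1.2.1.length) && (decide (p.2.2.1.size ≤ p.1.2.1.length) &&
    (decide (p.2.2.2.1.size ≤ p.1.2.1.length) && (decide (p.2.2.2.2.1.size ≤ p.1.2.1.length) &&
      (decide (sz p.2.2.2.2.2 ≤ q.eval (sz (l1 p))) && V (l1 p, p.2.2.2.2.2)))))

/-- the test -/
def tst (V : List ℕ × T → Bool) (q : Polynomial ℕ) (p : A × B) (z : T) : Bool :=
  !(prem V q p) || (decide (sz z ≤ q.eval (sz (l2 p))) && V (l2 p, z))

theorem poly_l1 : NPC.Poly l1 := by
  have e1 : NPC.Poly (fun p : A × B => p.1.1) := (NPC.Poly.id.fst).fst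
  have e2 : NPC.Poly (fun p : A × B => p.2.1) := (NPC.Poly.id.snd).fst
  have e3 : NPC.Poly (fun p : A × B => p.2.2.1) := (NPC.Poly.id.snd).snd.fst
  have e4 : NPC.Poly (fun p : A × B => p.2.2.2.1) := (NPC.Poly.id.snd).snd.snd.fst
  have e5 : NPC.Poly (fun p : A × B => p.2.2.2.2.1) := (NPC.Poly.id.snd).snd.snd.snd.fst
  have e6 : NPC.Poly (fun p : A × B => p.1.2.2) := (NPC.Poly.id.fst).snd.snd
  exact NPC.Poly.cons e1 (NPC.Poly.cons (poly_pr (poly_pr e2 e3) (poly_pr e4 e5))
    (NPC.Poly.cons (poly_two_pow e6) (NPC.Poly.const [])))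

theorem poly_l2 : NPC.Poly l2 := by
  have e2 : NPC.Poly (fun p : A × B => p.2.1) := (NPC.Poly.id.snd).fst
  have e3 : NPC.Poly (fun p : A × B => p.2.2.1) := (NPC.Poly.id.snd).snd.fst
  have e4 : NPC.Poly (fun p : A × B => p.2.2.2.1) := (NPC.Poly.id.snd).snd.snd.fst
  exact NPC.Poly.cons e2 (NPC.Poly.cons e3 (NPC.Poly.cons e4 (NPC.Poly.const [])))

theorem poly_prem {V : List ℕ × T → Bool} (hV : NPC.Poly V) (q : Polynomial ℕ) : NPC.Poly (prem V q) := by
  have e2 : NPC.Poly (fun p : A × B => p.2.1) := (NPC.Poly.id.snd).fst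
  have e3 : NPC.Poly (fun p : A × B => p.2.2.1) := (NPC.Poly.id.snd).snd.fst
  have e4 : NPC.Poly (fun p : A × B => p.2.2.2.1) := (NPC.Poly.id.snd).snd.snd.fst
  have e5 : NPC.Poly (fun p : A × B => p.2.2.2.2.1) := (NPC.Poly.id.snd).snd.snd.snd.fst
  have e6 : NPC.Poly (fun p : A × B => p.2.2.2.2.2) := (NPC.Poly.id.snd).snd.snd.snd.snd
  have en : NPC.Poly (fun p : A × B => p.1.2.1.length) := NPC.Poly.length (NPC.Poly.id.fst).snd.fst
  have s6 : NPC.Poly (fun p : A × B => sz p.2.2.2.2.2) := (upoly_sz (α := T)).toPoly.comp e6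
  have sl : NPC.Poly (fun p : A × B => q.eval (sz (l1 p))) :=
    (((upoly_sz (α := List ℕ)).comp poly_l1).eval q).toPoly
  exact NPC.Poly.and (NPC.Poly.decide_le (poly_size e2) en) (NPC.Poly.and (NPC.Poly.decide_le (poly_size e3) en)
    (NPC.Poly.and (NPC.Poly.decide_le (poly_size e4) en) (NPC.Poly.and (NPC.Poly.decide_le (poly_size e5) en)
      (NPC.Poly.and (NPC.Poly.decide_le s6 sl) (hV.comp (NPC.Poly.pair poly_l1 e6))))))

theorem poly_tst {V : List ℕ × T → Bool} (hV : NPC.Poly V) (q : Polynomial ℕ) :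
    NPC.Poly (fun p : (A × B) × T => tst V q p.1 p.2) := by
  have s2 : NPC.Poly (fun p : (A × B) × T => sz p.2) := (upoly_sz (α := T)).toPoly.comp NPC.Poly.id.snd
  have sl : NPC.Poly (fun p : (A × B) × T => q.eval (sz (l2 p.1))) :=
    (((upoly_sz (α := List ℕ)).comp (poly_l2.comp NPC.Poly.id.fst)).eval q).toPoly
  exact NPC.Poly.or (NPC.Poly.not ((poly_prem hV q).comp NPC.Poly.id.fst)) (NPC.Poly.and (NPC.Poly.decide_le s2 sl)
    (hV.comp (NPC.Poly.pair (poly_l2.comp NPC.Poly.id.fst) NPC.Poly.id.snd)))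

/-- the test on codes -/
def R (G : A × B → T → Bool) (w : List Bool × T × T) : Bool :=
  (unbits A w.1).elim false fun a =>
    (TDec.dec w.2.1 : Option B).elim true fun b => G (a, b) w.2.2

theorem poly_dec' {α : Type} [TEnc α] {g : α → T} (hg : NPC.Poly g) :
    NPC.Poly (fun a => (TDec.dec (g a) : Option B)) :=
  NPC.Poly.comp (TDec.poly_dec (α := B)) hg

theorem poly_unb {α : Type} [TEnc α] {g : α → List Bool} (hg : NPC.Poly g) :
    NPC.Poly (fun a => unbits A (g a)) :=
  NPC.Poly.comp (poly_unbits (α := A)) hg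

/-- options -/
theorem poly_elim {α β : Type} [TEnc α] [TEnc β] {o : α → Option β} {b : Bool} {h : α → β → Bool}
    (ho : NPC.Poly o) (hh : NPC.Poly (fun p : α × β => h p.1 p.2)) :
    NPC.Poly (fun a => (o a).elim b (h a)) :=
  (NPC.Poly.optCases ho (NPC.Poly.const b) hh).congr fun a => by
    cases o a <;> rfl

theorem g2' : NPC.Poly (fun p : (List Bool × T × T) × A => p.1.2.1) := (NPC.Poly.id.fst).snd.fst

theorem g3a : NPC.Poly (fun p : ((List Bool × T × T) × A) × B => p.1.2) := (NPC.Poly.id.fst).snd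

theorem g3b : NPC.Poly (fun p : ((List Bool × T × T) × A) × B => p.2) := NPC.Poly.id.snd

theorem g3c : NPC.Poly (fun p : ((List Bool × T × T) × A) × B => p.1.1.2.2) :=
  (NPC.Poly.id.fst).fst.snd.snd

theorem poly_R {G : A × B → T → Bool} (hG : NPC.Poly (fun p : (A × B) × T => G p.1 p.2)) :
    NPC.Poly (R G) := by
  have h1 := poly_unb (α := List Bool × T × T) NPC.Poly.id.fst
  have h2 := poly_dec' g2'
  have h3 : NPC.Poly (fun p : ((List Bool × T × T) × A) × B => G (p.1.2, p.2) p.1.1.2.2) :=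
    NPC.Poly.comp (g := fun p : (A × B) × T => G p.1 p.2) hG
      (NPC.Poly.pair (NPC.Poly.pair g3a g3b) g3c)
  have h5 := poly_elim (b := true) (h := fun (p : (List Bool × T × T) × A) (b : B) =>
    G (p.2, b) p.1.2.2) h2 h3
  exact poly_elim (b := false) (h := fun (w : List Bool × T × T) (a : A) =>
    (TDec.dec w.2.1 : Option B).elim true fun b => G (a, b) w.2.2) h1 h5

theorem sz_le_of_lt {a k : ℕ} (h : a < 2 ^ k) : sz a ≤ 4 * k + 1 :=
  (sz_nat_le a).trans (by have := Nat.size_le.2 h; omega)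

theorem m21 : S_cpi2 := by
  intro hpi hnp μ hμ
  obtain ⟨V, q, hV, hVq⟩ := hnp μ hμ
  let Q : Polynomial ℕ := Polynomial.C 100 * Polynomial.X + Polynomial.C 100 +
    q.comp (Polynomial.C 100 * Polynomial.X + Polynomial.C 100)
  have hQ : ∀ s, Q.eval s = 100 * s + 100 + q.eval (100 * s + 100) := by
    intro s
    simp [Q, Polynomial.eval_comp]
  have hR : NPC.Poly (R (tst V q)) := by
    have h2 := poly_tst hV q
    generalize tst V q = G at h2 ⊢
    exact poly_R h2
  refine hpi (R (tst V q)) Q hR _ fun x => ?_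
  rw [mem_lang_iff]
  cases hx : unbits A x with
  | none =>
    constructor
    · rintro ⟨a, ha, _⟩
      exact absurd ha (by simp)
    · intro h
      exfalso
      obtain ⟨z, -, hz⟩ := h T.nil (by
        have : sz T.nil = 1 := rfl
        rw [hQ, this]
        omega)
      unfold R at hz
      rw [hx] at hz
      exact Bool.false_ne_true hz
  | some α =>
    obtain ⟨e, n, t⟩ := α
    have hlen : x.length = sz e + (sz n + sz t + 1) + 1 := by
      rw [← bits_of_unbits hx, bits_length, sz_pair, sz_pair]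
    have hn := length_lt_sz n
    have ht := length_lt_sz t
    have he := sz_pos e
    have nil1 : sz T.nil = 1 := rfl
    constructor
    · rintro ⟨_, h1, h2⟩ y hy
      rw [Option.some.injEq] at h1
      subst h1
      cases hd : (TDec.dec y : Option B) with
      | none =>
        refine ⟨T.nil, by rw [hQ, nil1]; omega, ?_⟩
        unfold R
        simp only [hx, hd, Option.elim]
      | some b =>
        obtain ⟨a, xx, zz, u, c⟩ := b
        by_cases hp : prem V q ((e, n, t), (a, xx, zz, u, c)) = true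
        · have hp' := hp
          unfold prem at hp'
          simp only [Bool.and_eq_true, decide_eq_true_eq] at hp'
          obtain ⟨p1, p2, p3, p4, p5, p6⟩ := hp'
          have s1 : μ.Sat Nn (asg [e, qd a xx zz u, 2 ^ t.length]) := (hVq _).2 ⟨c, p5, p6⟩
          have b1 := Nat.size_le.1 p1
          have b2 := Nat.size_le.1 p2
          have b3 := Nat.size_le.1 p3
          have s2 := h2 a xx zz u b1 b2 b3 (Nat.size_le.1 p4) s1
          obtain ⟨z, hz1, hz2⟩ := (hVq _).1 s2
          refine ⟨z, ?_, ?_⟩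
          · refine hz1.trans ?_
            rw [hQ]
            refine le_trans (eval_mono q (n := 100 * x.length + 100) ?_) (by omega)
            have c1 := sz_le_of_lt b1
            have c2 := sz_le_of_lt b2
            have c3 := sz_le_of_lt b3
            simp only [sz_list_cons, sz_list_nil]
            omega
          · unfold R
            simp only [hx, hd, Option.elim]
            unfold tst
            have : (decide (sz z ≤ q.eval (sz (l2 ((e, n, t), (a, xx, zz, u, c))))) &&
                V (l2 ((e, n, t), (a, xx, zz, u, c)), z)) = true := by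
              rw [Bool.and_eq_true, decide_eq_true_eq]
              exact ⟨hz1, hz2⟩
            rw [this, Bool.or_true]
        · refine ⟨T.nil, by rw [hQ, nil1]; omega, ?_⟩
          unfold R
          simp only [hx, hd, Option.elim]
          unfold tst
          rw [Bool.not_eq_true] at hp
          rw [hp]
          rfl
    · intro h
      refine ⟨(e, n, t), rfl, ?_⟩
      intro a xx zz u b1 b2 b3 b4 hs
      simp only at b1 b2 b3 b4 hs
      obtain ⟨c, hc1, hc2⟩ := (hVq _).1 hs
      have c1 := sz_le_of_lt b1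
      have c2 := sz_le_of_lt b2
      have c3 := sz_le_of_lt b3
      have c4 := sz_le_of_lt b4
      have c5 := sz_le_of_lt (qd_lt b1 b2 b3 b4)
      have c6 : sz (2 ^ t.length) ≤ 4 * (t.length + 1) + 1 :=
        sz_le_of_lt (Nat.pow_lt_pow_right (by norm_num) (Nat.lt_succ_self _))
      have hl : sz [e, qd a xx zz u, 2 ^ t.length] ≤ 100 * x.length + 100 := by
        simp only [sz_list_cons, sz_list_nil]
        omega
      have hc3 : sz c ≤ q.eval (100 * x.length + 100) := hc1.trans (eval_mono q hl)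
      obtain ⟨z, -, hz⟩ := h (toT ((a, xx, zz, u, c) : B)) (by
        have : sz (toT ((a, xx, zz, u, c) : B)) = sz ((a, xx, zz, u, c) : B) := rfl
        rw [this, hQ]
        simp only [sz_pair]
        omega)
      unfold R at hz
      simp only [hx, TDec.dec_toT, Option.elim] at hz
      have hp : prem V q ((e, n, t), (a, xx, zz, u, c)) = true := by
        unfold prem
        simp only [Bool.and_eq_true, decide_eq_true_eq]
        exact ⟨Nat.size_le.2 b1, Nat.size_le.2 b2, Nat.size_le.2 b3, Nat.size_le.2 b4, hc1, hc2⟩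
      unfold tst at hz
      rw [hp, Bool.not_true, Bool.false_or, Bool.and_eq_true, decide_eq_true_eq] at hz
      exact (hVq _).2 ⟨z, hz.1, hz.2⟩

end Pool.Agent.J6H77.RF21
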